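import Pool.Agent.H503R3.EGB.Minimal

/-!
# A kernel finitely generated up to symmetry, without finite equivariant Groebner basis
-/

set_option autoImplicit false

namespace Pool.Agent.Results.MP_72f11f_al.NoFiniteEGB

open MvPolynomial Pool.Agent.H503R3.EGB

/-- an element of the kernel has another monomial with the same image -/
theorem exists_other {g : R} (hg : g ∈ kerPhi f0) {m : Idx →₀ ℕ} (hm : m ∈ g.support) :
    ∃ m' ∈ g.support, W (Finsupp.toMultiset m') = W (Finsupp.toMultiset m) ∧ m' ≠ m := by
  classical
  by_contra hcon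
  push Not at hcon
  have h0 : phi f0 g = 0 := hg
  rw [← MvPolynomial.support_sum_monomial_coeff g, map_sum] at h0
  have h1 : ∀ m' : Idx →₀ ℕ, phi f0 (monomial m' (coeff m' g)) =
      monomial (Multiset.toFinsupp (W (Finsupp.toMultiset m'))) (coeff m' g) := by
    intro m'
    have : (monomial m' (coeff m' g) : R) = C (coeff m' g) * monomial m' 1 := by
      rw [C_mul_monomial, mul_one]
    rw [this, map_mul, ← mon_toMultiset, phi_mon, prod_X]
    rw [← algebraMap_eq, AlgHom.commutes, algebraMap_eq, C_mul_monomial, mul_one]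
  have h2 := congrArg (coeff (Multiset.toFinsupp (W (Finsupp.toMultiset m)))) h0
  rw [coeff_sum, coeff_zero, Finset.sum_eq_single m] at h2
  · rw [h1, coeff_monomial, if_pos rfl] at h2
    exact (mem_support_iff.mp hm) h2
  · intro m' hm' hne
    rw [h1, coeff_monomial, if_neg]
    intro h3
    exact hne (hcon m' hm' (Multiset.toFinsupp.injective h3))
  · intro h
    exact absurd hm h

theorem card_toMultiset_le {g : R} {m : Idx →₀ ℕ} (hm : m ∈ g.support) :
    Multiset.card (Finsupp.toMultiset m) ≤ g.totalDegree := by
  rw [Finsupp.card_toMultiset]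
  exact le_totalDegree hm

/-- no proper divisor of a big monomial is a leading monomial -/
theorem no_proper_divisor (j : ℕ) {g : R} (hg : g ∈ kerPhi f0) {m : Idx →₀ ℕ}
    (hm : IsLM le0 g m) (hle : m ≤ Multiset.toFinsupp (big j))
    (hne : m ≠ Multiset.toFinsupp (big j)) : False := by
  classical
  obtain ⟨m', hm', hW, hne'⟩ := exists_other hg hm.1
  have hlt : syn (Finsupp.toMultiset m') ≤ syn (Finsupp.toMultiset m) := hm.2 m' hm'
  -- there is a maximal proper divisor `D` of `big j` divisible by `m`
  have hle' : Finsupp.toMultiset m ≤ big j := by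
    rw [Multiset.le_iff_count]
    intro e
    have := hle e
    rw [Multiset.toFinsupp_apply] at this
    rwa [Finsupp.count_toMultiset]
  obtain ⟨e, he⟩ : ∃ e, (Finsupp.toMultiset m).count e < (big j).count e := by
    by_contra hcon
    push Not at hcon
    apply hne
    have h1 : Finsupp.toMultiset m = big j :=
      le_antisymm hle' (Multiset.le_iff_count.mpr hcon)
    rw [← h1, Finsupp.toMultiset_toFinsupp]
  have hebig : e ∈ big j := Multiset.count_pos.mp (by omega)
  have hleD : Finsupp.toMultiset m ≤ (big j).erase e := by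
    rw [Multiset.le_iff_count]
    intro e'
    by_cases h : e' = e
    · subst h
      rw [Multiset.count_erase_self]
      omega
    · rw [Multiset.count_erase_of_ne h]
      exact Multiset.le_iff_count.mp hle' e'
  obtain ⟨r, hr⟩ := Multiset.le_iff_exists_add.mp hleD
  have hWD : W (Finsupp.toMultiset m' + r) = W ((big j).erase e) := by
    rw [hr, W_add, W_add, hW]
  have hmin : syn ((big j).erase e) ≤ syn (Finsupp.toMultiset m' + r) := by
    by_cases heup : e = up j
    · have h1 : (big j).erase e = DN (Finset.range (j + 2)) := by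
        rw [heup, big, Multiset.erase_cons_head]
      rw [h1] at hWD ⊢
      exact min_case_one _ hWD
    · obtain ⟨k, hk, rfl⟩ : ∃ k ∈ Finset.range (j + 2), dn k = e := by
        rw [big, Multiset.mem_cons] at hebig
        rcases hebig with h | h
        · exact absurd h heup
        · exact mem_DN.mp h
      have h1 : (big j).erase (dn k) = up j ::ₘ DN ((Finset.range (j + 2)).erase k) := by
        rw [big, Multiset.erase_cons_tail _ (fun h => heup h.symm)]
        congr 1
        rw [DN, DN, Finset.erase_val, Multiset.map_erase _ dn_injective]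
      rw [h1] at hWD ⊢
      exact min_case_two j k (Finset.mem_range.mp hk) hWD
  rw [hr, syn_add, syn_add] at hmin
  have h2 : syn (Finsupp.toMultiset m) ≤ syn (Finsupp.toMultiset m') :=
    le_of_add_le_add_right hmin
  have h3 := syn_injective (le_antisymm hlt h2)
  apply hne'
  have h4 := congrArg Multiset.toFinsupp h3
  rwa [Finsupp.toMultiset_toFinsupp, Finsupp.toMultiset_toFinsupp] at h4

theorem W_big (j : ℕ) : W (big j) = W (small j) := by
  have h1 : (big j).map src = (small j).map src := by
    have hb : (big j).map src = 1 ::ₘ (Finset.range (j + 2)).val.map (fun k => k + 2) := by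
      rw [big, Multiset.map_cons, DN, Multiset.map_map]
      rfl
    have hs : (small j).map src = (Finset.range (j + 3)).val.map (fun k => k + 1) := by
      rw [small, Multiset.map_map]
      rfl
    have hnb : ((big j).map src).Nodup := by
      rw [hb, Multiset.nodup_cons]
      refine ⟨?_, Multiset.Nodup.map (fun a b h => ?_) (Finset.nodup _)⟩
      · intro h
        obtain ⟨k, _, hk⟩ := Multiset.mem_map.mp h
        omega
      · have h' : a + 2 = b + 2 := h
        omega
    have hns : ((small j).map src).Nodup := by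
      rw [hs]
      refine Multiset.Nodup.map (fun a b h => ?_) (Finset.nodup _)
      have h' : a + 1 = b + 1 := h
      omega
    rw [Multiset.Nodup.ext hnb hns]
    intro v
    rw [hb, hs, Multiset.mem_cons, Multiset.mem_map, Multiset.mem_map]
    simp only [Finset.mem_val, Finset.mem_range]
    constructor
    · rintro (h | ⟨k, hk, rfl⟩)
      · exact ⟨0, by omega, by omega⟩
      · exact ⟨k + 1, by omega, by omega⟩
    · rintro ⟨k, hk, rfl⟩
      rcases Nat.eq_zero_or_pos k with h0 | h0
      · left; omega
      · right; exact ⟨k - 1, by omega, by omega⟩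
  have h2 : (big j).map tgt = (small j).map tgt := by
    have hb : (big j).map tgt = (j + 2) ::ₘ (Finset.range (j + 2)).val.map (fun k => k) := by
      rw [big, Multiset.map_cons, DN, Multiset.map_map]
      rfl
    have hs : (small j).map tgt = (Finset.range (j + 3)).val.map (fun k => k) := by
      rw [small, Multiset.map_map]
      rfl
    have hnb : ((big j).map tgt).Nodup := by
      rw [hb, Multiset.nodup_cons]
      refine ⟨?_, Multiset.Nodup.map (fun a b h => h) (Finset.nodup _)⟩
      intro h
      obtain ⟨k, hk', hk⟩ := Multiset.mem_map.mp h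
      rw [Finset.mem_val, Finset.mem_range] at hk'
      omega
    have hns : ((small j).map tgt).Nodup := by
      rw [hs]
      exact Multiset.Nodup.map (fun a b h => h) (Finset.nodup _)
    rw [Multiset.Nodup.ext hnb hns]
    intro v
    rw [hb, hs, Multiset.mem_cons, Multiset.mem_map, Multiset.mem_map]
    simp only [Finset.mem_val, Finset.mem_range]
    constructor
    · rintro (h | ⟨k, hk, rfl⟩)
      · exact ⟨j + 2, by omega, h.symm⟩
      · exact ⟨k, by omega, rfl⟩
    · rintro ⟨k, hk, rfl⟩
      rcases Nat.lt_or_ge k (j + 2) with h0 | h0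
      · right; exact ⟨k, h0, rfl⟩
      · left; omega
  rw [W, W, h1, h2]

/-- For `f = s t ^ 2` the kernel of `y_ij ↦ f(x_i, x_j)` is finitely generated up to symmetry, but
for some monomial order respecting the increasing maps it has no finite equivariant Groebner
basis. -/
theorem result : FGUpToSymmetry (kerPhi (X 0 * X 1 ^ 2)) ∧
    ∃ le : (Idx →₀ ℕ) → (Idx →₀ ℕ) → Prop, IsMonomialOrder le ∧ RespectsInc le ∧
      ¬ ∃ G : Set R, G.Finite ∧ IsEGB le (kerPhi (X 0 * X 1 ^ 2)) G := by
  classical
  change FGUpToSymmetry (kerPhi f0) ∧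
    ∃ le : (Idx →₀ ℕ) → (Idx →₀ ℕ) → Prop, IsMonomialOrder le ∧ RespectsInc le ∧
      ¬ ∃ G : Set R, G.Finite ∧ IsEGB le (kerPhi f0) G
  refine ⟨fg, le0, isMonomialOrder_le0, respects_le0, ?_⟩
  rintro ⟨G, hG, hGI, hspan⟩
  obtain ⟨B, hB⟩ : ∃ B, ∀ g ∈ G, g.totalDegree ≤ B := by
    obtain ⟨B, hB⟩ := (hG.image MvPolynomial.totalDegree).bddAbove
    exact ⟨B, fun g hg => hB ⟨g, hg, rfl⟩⟩
  -- the monomial `big B` lies in the initial ideal
  have hmem : (monomial (Multiset.toFinsupp (big B)) 1 : R) ∈ initialIdeal le0 (kerPhi f0) := by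
    refine Ideal.subset_span ⟨mon (big B) - mon (small B), mon_sub_mem_ker (W_big B), _, ?_, rfl⟩
    have hv1 : v1 (small B) < v1 (big B) := by
      have h1 : v1 (small B) = 0 := by
        rw [v1, Multiset.countP_eq_zero]
        intro e he
        obtain ⟨k, _, rfl⟩ := Multiset.mem_map.mp he
        have h3 : src (st k) = k + 1 := rfl
        have h4 : tgt (st k) = k := rfl
        omega
      rw [h1, v1, big, Multiset.countP_cons_of_pos]
      · omega
      · change 1 < B + 2
        omega
    have hlt : syn (small B) < syn (big B) := by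
      rw [syn, syn, Prod.Lex.lt_iff]
      exact Or.inl hv1
    have hne : Multiset.toFinsupp (small B) ≠ Multiset.toFinsupp (big B) := by
      intro h
      rw [Multiset.toFinsupp.injective h] at hlt
      exact lt_irrefl _ hlt
    constructor
    · rw [mem_support_iff, mon_eq, mon_eq, coeff_sub, coeff_monomial, coeff_monomial, if_pos rfl,
        if_neg hne]
      simp
    · intro m' hm'
      rw [mem_support_iff, mon_eq, mon_eq, coeff_sub, coeff_monomial, coeff_monomial] at hm'
      by_cases h1 : Multiset.toFinsupp (big B) = m'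
      · rw [← h1]
        exact le_refl _
      · rw [if_neg h1] at hm'
        by_cases h2 : Multiset.toFinsupp (small B) = m'
        · rw [← h2]
          change syn _ ≤ syn _
          rw [Multiset.toFinsupp_toMultiset, Multiset.toFinsupp_toMultiset]
          exact hlt.le
        · rw [if_neg h2] at hm'
          simp at hm'
  rw [← hspan] at hmem
  have hset : {h : R | ∃ (ρ : ℕ → ℕ) (hρ : StrictMono ρ), ∃ g ∈ G, ∃ m,
      IsLM le0 (act ρ hρ.injective g) m ∧ h = monomial m 1} =
      (fun m => (monomial m 1 : R)) '' {m | ∃ (ρ : ℕ → ℕ) (hρ : StrictMono ρ), ∃ g ∈ G,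
        IsLM le0 (act ρ hρ.injective g) m} := by
    ext h
    constructor
    · rintro ⟨ρ, hρ, g, hg, m, hm, rfl⟩
      exact ⟨m, ⟨ρ, hρ, g, hg, hm⟩, rfl⟩
    · rintro ⟨m, ⟨ρ, hρ, g, hg, hm⟩, rfl⟩
      exact ⟨ρ, hρ, g, hg, m, hm, rfl⟩
  rw [hset, mem_ideal_span_monomial_image] at hmem
  obtain ⟨m, ⟨ρ, hρ, g, hg, hm⟩, hle⟩ := hmem (Multiset.toFinsupp (big B)) (by
    rw [mem_support_iff, coeff_monomial, if_pos rfl]
    exact one_ne_zero)
  refine no_proper_divisor B (act_mem_ker f0 ρ hρ.injective (hGI hg)) hm hle ?_
  intro h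
  have h1 := card_toMultiset_le hm.1
  have h2 : (act ρ hρ.injective g).totalDegree ≤ g.totalDegree := totalDegree_rename_le _ _
  have h3 := hB g hg
  rw [h, Multiset.toFinsupp_toMultiset] at h1
  have h4 : Multiset.card (big B) = B + 3 := by
    rw [big, Multiset.card_cons, DN, Multiset.card_map, Finset.card_val, Finset.card_range]
  omega

end Pool.Agent.Results.MP_72f11f_al.NoFiniteEGB
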